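import Mathlib
import Pool.Agent.H812R3.KP.Defs

/-!
General tools for uniform Roe algebras: metrics from gauges, finite propagation operators,
block estimates.
-/

set_option autoImplicit false
set_option linter.unusedSectionVars false

namespace Pool.Agent.H596Z.Roe

open scoped InnerProductSpace ENNReal
open Pool.Agent.H812R3.KP

/-- an increasing family of entourages -/
structure Gauge (X : Type) where
  R : ℕ → X → X → Prop
  refl : ∀ x, R 0 x x
  eq0 : ∀ x y, R 0 x y → x = y
  symm : ∀ k x y, R k x y → R k y x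
  mono : ∀ k l x y, k ≤ l → R k x y → R l x y
  trans : ∀ k l x y z, R k x y → R l y z → R (k + l) x z
  total : ∀ x y, ∃ k, R k x y

namespace Gauge

variable {X : Type} (g : Gauge X)

open Classical in
/-- the integer distance -/
noncomputable def d (x y : X) : ℕ := Nat.find (g.total x y)

theorem d_le {x y : X} {k : ℕ} : g.d x y ≤ k ↔ g.R k x y := by
  classical
  constructor
  · intro h
    exact g.mono _ _ _ _ h (Nat.find_spec (g.total x y))
  · intro h
    exact Nat.find_min' _ h

theorem rel_d (x y : X) : g.R (g.d x y) x y := g.d_le.1 le_rfl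

/-- the metric of a gauge -/
@[reducible] noncomputable def metric : MetricSpace X where
  dist x y := (g.d x y : ℝ)
  dist_self x := by
    have : g.d x x ≤ 0 := g.d_le.2 (g.refl x)
    simp [Nat.le_zero.1 this]
  dist_comm x y := by
    have h : ∀ a b, g.d a b ≤ g.d b a := fun a b => g.d_le.2 (g.symm _ _ _ (g.rel_d b a))
    rw [le_antisymm (h x y) (h y x)]
  dist_triangle x y z := by
    have : g.d x z ≤ g.d x y + g.d y z :=
      g.d_le.2 (g.trans _ _ _ _ _ (g.rel_d x y) (g.rel_d y z))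
    exact_mod_cast this
  eq_of_dist_eq_zero := by
    intro x y h
    have h1 : g.d x y = 0 := by exact_mod_cast h
    exact g.eq0 _ _ (g.d_le.1 h1.le)

theorem dist_eq (x y : X) : @dist X g.metric.toDist x y = (g.d x y : ℝ) := rfl

theorem dist_le_nat {x y : X} {k : ℕ} : @dist X g.metric.toDist x y ≤ (k : ℝ) ↔ g.R k x y := by
  rw [dist_eq, Nat.cast_le, d_le]

theorem rel_of_dist_le {x y : X} {r : ℝ} (h : @dist X g.metric.toDist x y ≤ r) :
    g.R ⌊r⌋₊ x y := by
  rw [dist_eq] at h
  exact g.d_le.1 (Nat.le_floor h)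

end Gauge

section FP

theorem ent_mul_ne {X : Type} {S T : B X} {x y : X} (h : ent (S * T) x y ≠ 0) :
    ∃ z, ent S x z ≠ 0 ∧ ent T z y ≠ 0 := by
  by_contra hc
  push Not at hc
  apply h
  have h1 := ent_mul S T x y
  have h2 : (fun z => ent S x z * ent T z y) = fun _ => 0 := by
    funext z
    by_cases hz : ent S x z = 0
    · simp [hz]
    · simp [hc z hz]
  rw [h2] at h1
  exact h1.unique hasSum_zero

theorem ent_star_ne {X : Type} {S : B X} {x y : X} (h : ent (star S) x y ≠ 0) : ent S y x ≠ 0 := by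
  rw [ent_star] at h
  intro h1
  apply h
  simp [h1]

variable (X : Type) [MetricSpace X]

/-- finite propagation operators -/
def FP : Set (B X) := {a | ∃ r : ℝ, ∀ x y, r < dist x y → ent a x y = 0}

/-- finite propagation operators form a star subalgebra -/
noncomputable def FPalg : StarSubalgebra ℂ (B X) where
  carrier := FP X
  mul_mem' := by
    rintro a b ⟨r, hr⟩ ⟨s, hs⟩
    refine ⟨r + s, fun x y hxy => ?_⟩
    by_contra h
    obtain ⟨z, h1, h2⟩ := ent_mul_ne h
    have h3 : dist x z ≤ r := not_lt.1 fun h' => h1 (hr _ _ h')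
    have h4 : dist z y ≤ s := not_lt.1 fun h' => h2 (hs _ _ h')
    linarith [dist_triangle x z y]
  add_mem' := by
    rintro a b ⟨r, hr⟩ ⟨s, hs⟩
    refine ⟨max r s, fun x y hxy => ?_⟩
    rw [ent_add, hr x y ((le_max_left _ _).trans_lt hxy), hs x y ((le_max_right _ _).trans_lt hxy),
      add_zero]
  algebraMap_mem' := by
    classical
    intro c
    refine ⟨0, fun x y hxy => ?_⟩
    rw [Algebra.algebraMap_eq_smul_one, ent_smul, ent_one, if_neg, mul_zero]
    rintro rfl
    simp at hxy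
  star_mem' := by
    rintro a ⟨r, hr⟩
    refine ⟨r, fun x y hxy => ?_⟩
    rw [ent_star, hr y x (by rwa [dist_comm]), map_zero]

/-- the uniform Roe algebra -/
noncomputable def UR : StarSubalgebra ℂ (B X) := (FPalg X).topologicalClosure

theorem mem_UR {a : B X} : a ∈ UR X ↔ a ∈ closure (FP X) := Iff.rfl

theorem FP_sub_UR {a : B X} (h : a ∈ FP X) : a ∈ UR X := subset_closure h

theorem adjoin_eq {S : Set (B X)} (h : S = FP X) :
    (StarAlgebra.adjoin ℂ S).topologicalClosure = UR X := by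
  have : StarAlgebra.adjoin ℂ S = FPalg X := by
    rw [h]
    exact StarAlgebra.adjoin_eq (FPalg X)
  rw [this]
  rfl

end FP

theorem mem_FP_of_gauge {X : Type} (g : Gauge X) {a : B X} (k : ℕ)
    (h : ∀ x y, ent a x y ≠ 0 → g.R k x y) : a ∈ @FP X g.metric := by
  refine ⟨k, fun x y hxy => ?_⟩
  by_contra h1
  exact absurd (g.dist_le_nat.2 (h x y h1)) (not_le.2 hxy)

theorem gauge_of_mem_FP {X : Type} (g : Gauge X) {a : B X} (h : a ∈ @FP X g.metric) :
    ∃ k, ∀ x y, ent a x y ≠ 0 → g.R k x y := by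
  obtain ⟨r, hr⟩ := h
  exact ⟨⌊r⌋₊, fun x y hxy => g.rel_of_dist_le (not_lt.1 fun h' => hxy (hr x y h'))⟩

section cut

variable {X : Type}

open Classical in
theorem ent_cut (S : Set X) (x y : X) : ent (cut S) x y = if x = y ∧ x ∈ S then 1 else 0 := by
  rw [ent, cut_apply, dl_apply]
  by_cases h1 : x = y <;> by_cases h2 : x ∈ S <;> simp [h1, h2]

open Classical in
theorem ent_cut_mul (S : Set X) (T : B X) (x y : X) :
    ent (cut S * T) x y = if x ∈ S then ent T x y else 0 := by
  rw [ent, mul_apply_eq_comp, cut_apply]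
  rfl

open Classical in
theorem cut_dl (S : Set X) (y : X) : cut S (dl y) = if y ∈ S then dl y else 0 := by
  ext x
  rw [cut_apply]
  by_cases h1 : y ∈ S
  · rw [if_pos h1]
    by_cases h2 : x ∈ S
    · rw [if_pos h2]
    · rw [if_neg h2, dl_apply, if_neg]
      rintro rfl
      exact h2 h1
  · rw [if_neg h1]
    by_cases h2 : x ∈ S
    · rw [if_pos h2, dl_apply, if_neg]
      · rfl
      · rintro rfl
        exact h1 h2
    · rw [if_neg h2]
      rfl

open Classical in
theorem ent_mul_cut (S : Set X) (T : B X) (x y : X) :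
    ent (T * cut S) x y = if y ∈ S then ent T x y else 0 := by
  rw [ent, mul_apply_eq_comp, cut_dl]
  split_ifs
  · rfl
  · simp

theorem star_cut (S : Set X) : star (cut S) = cut S := by
  classical
  apply ent_ext
  intro x y
  rw [ent_star, ent_cut, ent_cut]
  by_cases h1 : x = y
  · subst h1
    by_cases h2 : x ∈ S <;> simp [h2]
  · have h2 : ¬ y = x := fun h => h1 h.symm
    simp [h1, h2]

theorem cut_mul_cut (S T : Set X) : cut S * cut T = cut (S ∩ T) := by
  classical
  apply ent_ext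
  intro x y
  rw [ent_cut_mul, ent_cut, ent_cut]
  by_cases h1 : x = y <;> by_cases h2 : x ∈ S <;> by_cases h3 : x ∈ T <;> simp_all

theorem cut_add_compl (S : Set X) : cut S + cut Sᶜ = 1 := by
  classical
  apply ent_ext
  intro x y
  rw [ent_add, ent_cut, ent_cut, ent_one]
  by_cases h1 : x = y <;> by_cases h2 : x ∈ S <;> simp_all

theorem norm_cut_apply_le (S : Set X) (ξ : L2 X) : ‖cut S ξ‖ ≤ ‖ξ‖ := by
  classical
  have h : ‖cut S ξ‖ ^ 2 ≤ ‖ξ‖ ^ 2 := by
    rw [norm_sq_eq, norm_sq_eq]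
    refine (summable_sq _).tsum_le_tsum (fun x => ?_) (summable_sq _)
    rw [cut_apply]
    split_ifs
    · exact le_rfl
    · simp
  exact (sq_le_sq₀ (norm_nonneg _) (norm_nonneg _)).1 h

theorem norm_cut_le (S : Set X) : ‖cut S‖ ≤ 1 :=
  ContinuousLinearMap.opNorm_le_bound _ zero_le_one fun ξ => by
    rw [one_mul]; exact norm_cut_apply_le S ξ

theorem sum_sq_le (ξ : L2 X) (s : Finset X) : ∑ x ∈ s, ‖ξ x‖ ^ 2 ≤ ‖ξ‖ ^ 2 := by
  rw [norm_sq_eq]
  exact (summable_sq ξ).sum_le_tsum s (fun _ _ => by positivity)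

theorem norm_le_of_sum {ξ : L2 X} {C : ℝ} (hC : 0 ≤ C)
    (h : ∀ s : Finset X, ∑ x ∈ s, ‖ξ x‖ ^ 2 ≤ C ^ 2) : ‖ξ‖ ≤ C := by
  have h1 : ‖ξ‖ ^ 2 ≤ C ^ 2 := by
    rw [norm_sq_eq]
    exact (summable_sq ξ).tsum_le_of_sum_le h
  exact (sq_le_sq₀ (norm_nonneg _) hC).1 h1

theorem sum_cut_le {J : Type} (key : X → J) (t : Finset J) (ξ : L2 X) :
    ∑ j ∈ t, ‖cut {x | key x = j} ξ‖ ^ 2 ≤ ‖ξ‖ ^ 2 := by
  classical
  simp only [norm_sq_eq]
  rw [← Summable.tsum_finsetSum (fun j _ => summable_sq _)]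
  refine Summable.tsum_le_tsum (fun x => ?_) (summable_sum fun j _ => summable_sq _)
    (summable_sq _)
  have : ∀ j, ‖(cut {x | key x = j} ξ) x‖ ^ 2 = if key x = j then ‖ξ x‖ ^ 2 else 0 := by
    intro j
    rw [cut_apply]
    by_cases h : key x = j <;> simp [h]
  simp only [this]
  rw [Finset.sum_ite_eq]
  split_ifs
  · exact le_rfl
  · positivity

theorem apply_congr_of_ent {T : B X} {ξ η : L2 X} {x : X}
    (h : ∀ z, ent T x z ≠ 0 → ξ z = η z) : (T ξ) x = (T η) x := by
  have h1 := hasSum_apply T ξ x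
  have h2 := hasSum_apply T η x
  have : (fun z => ent T x z * ξ z) = fun z => ent T x z * η z := by
    funext z
    by_cases hz : ent T x z = 0
    · simp [hz]
    · rw [h z hz]
  rw [this] at h1
  exact h1.unique h2

/-- the norm of a block diagonal operator -/
theorem norm_le_of_blocks {J : Type} (key : X → J) {T : B X} {c : ℝ} (hc : 0 ≤ c)
    (hT : ∀ x y, ent T x y ≠ 0 → key x = key y)
    (hb : ∀ (j : J) (ζ : L2 X), (∀ x, key x ≠ j → ζ x = 0) → ‖T ζ‖ ≤ c * ‖ζ‖) : ‖T‖ ≤ c := by
  classical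
  refine ContinuousLinearMap.opNorm_le_bound _ hc fun ξ => ?_
  refine norm_le_of_sum (by positivity) fun s => ?_
  rw [← Finset.sum_fiberwise_of_maps_to (s := s) (t := s.image key) (g := key)
    (fun x hx => Finset.mem_image_of_mem _ hx)]
  calc ∑ j ∈ s.image key, ∑ x ∈ s with key x = j, ‖(T ξ) x‖ ^ 2
      ≤ ∑ j ∈ s.image key, c ^ 2 * ‖cut {x | key x = j} ξ‖ ^ 2 := by
        refine Finset.sum_le_sum fun j _ => ?_
        have h1 : ∑ x ∈ s with key x = j, ‖(T ξ) x‖ ^ 2
            = ∑ x ∈ s with key x = j, ‖(T (cut {x | key x = j} ξ)) x‖ ^ 2 := by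
          refine Finset.sum_congr rfl fun x hx => ?_
          rw [Finset.mem_filter] at hx
          congr 2
          apply apply_congr_of_ent
          intro z hz
          rw [cut_apply, if_pos]
          rw [Set.mem_ofPred_eq, ← hT x z hz, hx.2]
        rw [h1]
        refine (sum_sq_le _ _).trans ?_
        rw [← mul_pow]
        refine pow_le_pow_left₀ (norm_nonneg _) (hb j _ ?_) 2
        intro x hx
        rw [cut_apply, if_neg (show x ∉ {x | key x = j} from hx)]
    _ = c ^ 2 * ∑ j ∈ s.image key, ‖cut {x | key x = j} ξ‖ ^ 2 := by rw [Finset.mul_sum]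
    _ ≤ c ^ 2 * ‖ξ‖ ^ 2 := by
        gcongr
        exact sum_cut_le key _ ξ
    _ = (c * ‖ξ‖) ^ 2 := by ring

theorem eq_sum_of_support (ζ : L2 X) (s : Finset X) (h : ∀ x, x ∉ s → ζ x = 0) :
    ζ = ∑ x ∈ s, ζ x • dl x := by
  have h1 := hasSum_dl ζ
  exact h1.unique (hasSum_sum_of_ne_finset_zero fun x hx => by rw [h x hx, zero_smul])

end cut

/-- matrix units -/
noncomputable def mu {X : Type} (x y : X) : B X := InnerProductSpace.rankOne ℂ (dl x) (dl y)

theorem mu_apply {X : Type} (x y : X) (ξ : L2 X) : mu x y ξ = ξ y • dl x := by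
  rw [mu, InnerProductSpace.rankOne_apply, inner_dl]

theorem ent_mu {X : Type} [DecidableEq X] (x y a b : X) :
    ent (mu x y) a b = if a = x ∧ b = y then 1 else 0 := by
  rw [ent, mu_apply, lp.coeFn_smul, Pi.smul_apply, dl_apply, dl_apply]
  by_cases h1 : a = x <;> by_cases h2 : b = y
  · simp [h1, h2]
  · have : ¬ y = b := fun h => h2 h.symm
    simp [h1, h2, this]
  · simp [h1]
  · simp [h1]

theorem star_mu {X : Type} (x y : X) : star (mu x y) = mu y x := by
  rw [mu, mu, ContinuousLinearMap.star_eq_adjoint, InnerProductSpace.adjoint_rankOne]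

theorem mu_mul {X : Type} (x y z : X) : mu x y * mu y z = mu x z := by
  classical
  ext ξ : 1
  rw [mul_apply_eq_comp, mu_apply, mu_apply, mu_apply, lp.coeFn_smul, Pi.smul_apply, dl_apply]
  simp

theorem mu_mem_FP {X : Type} [MetricSpace X] (x y : X) : mu x y ∈ FP X := by
  classical
  refine ⟨dist x y, fun a b hab => ?_⟩
  rw [ent_mu, if_neg]
  rintro ⟨rfl, rfl⟩
  exact lt_irrefl _ hab

end Pool.Agent.H596Z.Roe
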