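import Mathlib

/-!
Definitions for uniform Roe algebras.
-/

set_option autoImplicit false

namespace Pool.Agent.H596Z.RoeDefs

open scoped Classical

/-- bounded operators on the Hilbert space of square summable functions on `X` -/
abbrev Op (X : Type) := lp (fun _ : X => ℂ) 2 →L[ℂ] lp (fun _ : X => ℂ) 2

/-- uniformly locally finite metric space -/
def ULF (X : Type) [MetricSpace X] : Prop :=
  ∀ r : ℝ, 0 < r → ∃ N : ℕ, ∀ x : X, (Metric.closedBall x r).encard ≤ (N : ℕ∞)

/-- the bounded operators of finite propagation -/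
def finProp (X : Type) [MetricSpace X] : Set (Op X) :=
  {a | ∃ r : ℝ, ∀ x y : X, r < dist x y →
    inner ℂ (lp.single 2 x (1 : ℂ) : lp (fun _ : X => ℂ) 2)
      (a (lp.single 2 y (1 : ℂ) : lp (fun _ : X => ℂ) 2)) = 0}

/-- the uniform Roe algebra: the norm closure of the star algebra of operators of finite
propagation -/
noncomputable def Roe (X : Type) [MetricSpace X] : StarSubalgebra ℂ (Op X) :=
  (StarAlgebra.adjoin ℂ (finProp X)).topologicalClosure

/-- property A -/
def PropertyA (Y : Type) [MetricSpace Y] : Prop :=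
  ∀ R ε : ℝ, 0 < R → 0 < ε → ∃ S : ℝ, 0 < S ∧ ∃ ξ : Y → lp (fun _ : Y => ℝ) 1,
    (∀ x y, 0 ≤ ξ x y) ∧ (∀ x, ‖ξ x‖ = 1) ∧
    (∀ x y, ξ x y ≠ 0 → y ∈ Metric.closedBall x S) ∧
    ∀ x y, dist x y ≤ R → ‖ξ x - ξ y‖ ≤ ε

/-- orthogonal projection of rank one -/
def IsRankOneProj {X : Type} (q : Op X) : Prop :=
  IsStarProjection q ∧ Module.rank ℂ (LinearMap.range q.toLinearMap) = 1

/-- the map sends rank one projections to rank one projections -/
def RankPreserving {X Y : Type} [MetricSpace X] [MetricSpace Y] (Ψ : Roe X → Roe Y) : Prop :=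
  ∀ q : Roe X, IsRankOneProj (q : Op X) → IsRankOneProj (Ψ q : Op Y)

/-- the map sends compact operators to compact operators -/
def CompactPreserving {X Y : Type} [MetricSpace X] [MetricSpace Y] (Ψ : Roe X → Roe Y) : Prop :=
  ∀ a : Roe X, IsCompactOperator (a : Op X) → IsCompactOperator (Ψ a : Op Y)

end Pool.Agent.H596Z.RoeDefs
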