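import Mathlib

/-!
Definitions for uniform Roe algebras.
-/

set_option autoImplicit false

namespace Pool.Agent.H596Z.RoeD

/-- uniformly locally finite metric space -/
def ULF (X : Type) [MetricSpace X] : Prop :=
  ∀ r : ℝ, 0 < r → ∃ N : ℕ, ∀ x : X, (Metric.closedBall x r).encard ≤ (N : ℕ∞)

/-- property A -/
def PropertyA (Y : Type) [MetricSpace Y] : Prop :=
  ∀ R ε : ℝ, 0 < R → 0 < ε → ∃ S : ℝ, 0 < S ∧ ∃ ξ : Y → Y → ℝ,
    (∀ x y, 0 ≤ ξ x y) ∧ (∀ x, HasSum (ξ x) 1) ∧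
    (∀ x y, ξ x y ≠ 0 → y ∈ Metric.closedBall x S) ∧
    ∀ x y, dist x y ≤ R → ∑' z, |ξ x z - ξ y z| ≤ ε

section
variable {H K : Type} [NormedAddCommGroup H] [InnerProductSpace ℂ H] [CompleteSpace H]
  [NormedAddCommGroup K] [InnerProductSpace ℂ K] [CompleteSpace K]

/-- the bounded operators of finite propagation with respect to the family `δ` -/
def finProp {X : Type} [MetricSpace X] (δ : X → H) : Set (H →L[ℂ] H) :=
  {a | ∃ r : ℝ, ∀ x y : X, r < dist x y → inner ℂ (δ x) (a (δ y)) = 0}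

/-- the uniform Roe algebra: the norm closure of the operators of finite propagation -/
def Roe {X : Type} [MetricSpace X] (δ : X → H) : Set (H →L[ℂ] H) := closure (finProp δ)

/-- the restriction of `Φ` to `A` is an injective star homomorphism into `B` -/
def IsEmbedding (A : Set (H →L[ℂ] H)) (B : Set (K →L[ℂ] K))
    (Φ : (H →L[ℂ] H) → (K →L[ℂ] K)) : Prop :=
  Set.MapsTo Φ A B ∧ Set.InjOn Φ A ∧
    (∀ a ∈ A, ∀ b ∈ A, Φ (a + b) = Φ a + Φ b ∧ Φ (a * b) = Φ a * Φ b) ∧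
    (∀ (c : ℂ), ∀ a ∈ A, Φ (c • a) = c • Φ a) ∧ ∀ a ∈ A, Φ (star a) = star (Φ a)

/-- orthogonal projection of rank one -/
def IsRankOneProj (q : H →L[ℂ] H) : Prop :=
  IsStarProjection q ∧ Module.rank ℂ (LinearMap.range q.toLinearMap) = 1

/-- the map sends rank one projections of `A` to rank one projections -/
def RankPreserving (A : Set (H →L[ℂ] H)) (Ψ : (H →L[ℂ] H) → (K →L[ℂ] K)) : Prop :=
  ∀ q ∈ A, IsRankOneProj q → IsRankOneProj (Ψ q)

/-- the map sends compact operators of `A` to compact operators -/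
def CompactPreserving (A : Set (H →L[ℂ] H)) (Ψ : (H →L[ℂ] H) → (K →L[ℂ] K)) : Prop :=
  ∀ a ∈ A, IsCompactOperator a → IsCompactOperator (Ψ a)

/-- some projection of `B` commuting with the image of `A` cuts `Φ` down to a rank preserving
embedding -/
def HasRankCut (A : Set (H →L[ℂ] H)) (B : Set (K →L[ℂ] K))
    (Φ : (H →L[ℂ] H) → (K →L[ℂ] K)) : Prop :=
  ∃ p ∈ B, IsStarProjection p ∧ (∀ a ∈ A, p * Φ a = Φ a * p) ∧
    IsEmbedding A B (fun a => p * Φ a * p) ∧ RankPreserving A (fun a => p * Φ a * p)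

/-- some projection of `B` commuting with the image of `A` cuts `Φ` down to a compact preserving
embedding -/
def HasCompactCut (A : Set (H →L[ℂ] H)) (B : Set (K →L[ℂ] K))
    (Φ : (H →L[ℂ] H) → (K →L[ℂ] K)) : Prop :=
  ∃ p ∈ B, IsStarProjection p ∧ (∀ a ∈ A, p * Φ a = Φ a * p) ∧
    IsEmbedding A B (fun a => p * Φ a * p) ∧ CompactPreserving A (fun a => p * Φ a * p)

end

end Pool.Agent.H596Z.RoeD
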