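import Pool.Agent.H596Z.Roe.Ghost
import Pool.Agent.H596Z.Roe.Defs2

set_option autoImplicit false

namespace Pool.Agent.H596Z.Roe

open Pool.Agent.H812R3.KP

theorem Roe_eq2 (X : Type) [MetricSpace X] :
    RoeD.Roe (dl : X → L2 X) = (UR X : Set (B X)) := by
  have h : RoeD.finProp (dl : X → L2 X) = FP X := by
    ext a
    simp only [RoeD.finProp, FP, Set.mem_ofPred_eq, ent_eq_inner]
  rw [RoeD.Roe, h]
  rfl

theorem propA_Y2 : @RoeD.PropertyA (ℕ × ℕ) gY.metric := by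
  intro R ε hR hε
  obtain ⟨S, hS, ξ, h1, h2, h3, h4⟩ := propA_Y R ε hR hε
  have hn : ∀ v : lp (fun _ : ℕ × ℕ => ℝ) 1, HasSum (fun z => |v z|) ‖v‖ := fun v => by
    have := lp.hasSum_norm (p := 1) (by simp) v
    simpa using this
  refine ⟨S, hS, fun x y => ξ x y, h1, fun x => ?_, h3, fun x y hxy => ?_⟩
  · have := hn (ξ x)
    rw [h2] at this
    simpa only [abs_of_nonneg (h1 x _)] using this
  · have := (hn (ξ x - ξ y)).tsum_eq
    simp only [lp.coeFn_sub, Pi.sub_apply] at this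
    rw [this]
    exact h4 x y hxy

theorem main2 : ∃ (X Y : Type) (_ : MetricSpace X) (_ : MetricSpace Y),
    RoeD.ULF X ∧ RoeD.ULF Y ∧ RoeD.PropertyA Y ∧
    ∃ Φ : B X → B Y,
      RoeD.IsEmbedding (RoeD.Roe (dl : X → L2 X)) (RoeD.Roe (dl : Y → L2 Y)) Φ ∧
      ∀ p ∈ RoeD.Roe (dl : Y → L2 Y), IsStarProjection p →
        (∀ a ∈ RoeD.Roe (dl : X → L2 X), p * Φ a = Φ a * p) →
        ¬ (RoeD.IsEmbedding (RoeD.Roe (dl : X → L2 X)) (RoeD.Roe (dl : Y → L2 Y))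
            (fun a => p * Φ a * p) ∧
            RoeD.RankPreserving (RoeD.Roe (dl : X → L2 X)) (fun a => p * Φ a * p)) ∧
        ¬ (RoeD.IsEmbedding (RoeD.Roe (dl : X → L2 X)) (RoeD.Roe (dl : Y → L2 Y))
            (fun a => p * Φ a * p) ∧
            RoeD.CompactPreserving (RoeD.Roe (dl : X → L2 X)) (fun a => p * Φ a * p)) := by
  refine ⟨ℕ, ℕ × ℕ, gX.metric, gY.metric, ulf_X, ulf_Y, propA_Y2, Ph, ⟨?_, ?_, ?_, ?_, ?_⟩, ?_⟩
  · intro a ha
    rw [@Roe_eq2 _ gY.metric]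
    exact Ph_UR (by rwa [@Roe_eq2 _ gX.metric] at ha)
  · intro a _ b _ hab
    exact Ph_inj hab
  · intro a _ b _
    exact ⟨Ph_add a b, Ph_mul a b⟩
  · intro c a _
    exact Ph_smul c a
  · intro a _
    exact Ph_star a
  · intro p hpY hp hcomm
    have hm : ∀ x x', mu x x' ∈ @RoeD.Roe (L2 ℕ) _ _ ℕ gX.metric dl := fun x x' => by
      rw [@Roe_eq2 _ gX.metric]
      exact @FP_sub_UR _ gX.metric _ (@mu_mem_FP _ gX.metric x x')
    have h0 : (0 : B ℕ) ∈ @RoeD.Roe (L2 ℕ) _ _ ℕ gX.metric dl := by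
      rw [@Roe_eq2 _ gX.metric]
      exact zero_mem _
    have hkey : Set.InjOn (fun a => p * Ph a * p) (@RoeD.Roe (L2 ℕ) _ _ ℕ gX.metric dl) →
        ¬ IsCompactOperator (p * Ph (mu 0 0) * p) := by
      intro hinj hc
      have h1 := key (p := p) (by rwa [@Roe_eq2 _ gY.metric] at hpY)
        hp.isSelfAdjoint hp.isIdempotentElem (fun x x' => hcomm _ (hm x x')) hc
      have h3 : mu (0:ℕ) 0 = 0 := by
        apply hinj (hm 0 0) h0
        simp only [h1]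
        simp [Ph]
      have h4 := norm_mu (0:ℕ) 0
      rw [h3] at h4
      simp at h4
    refine ⟨fun h => hkey h.1.2.1 ?_, fun h => hkey h.1.2.1 ?_⟩
    · exact compact_of_rankOne (h.2 _ (hm 0 0) (rankOne_mu 0))
    · exact h.2 _ (hm 0 0) (compact_of_rankOne (rankOne_mu 0))

theorem exists_basis (X : Type) : ∃ b : HilbertBasis X ℂ (L2 X), (b : X → L2 X) = dl := by
  classical
  refine ⟨HilbertBasis.ofRepr (LinearIsometryEquiv.refl ℂ _), funext fun x => ?_⟩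
  rw [← HilbertBasis.repr_symm_single]
  rfl

end Pool.Agent.H596Z.Roe
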