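import Pool.Agent.H596Z.Roe.Had
import Pool.Agent.H596Z.Roe.Defs

set_option autoImplicit false
set_option linter.unusedSectionVars false

namespace Pool.Agent.H596Z.Roe

open scoped InnerProductSpace ENNReal
open Pool.Agent.H812R3.KP Filter Topology

theorem small_inner {X : Type} (v : L2 X) {ε : ℝ} (hε : 0 < ε) :
    ∀ᶠ δ in 𝓝[>] (0:ℝ), ∀ ζ : L2 X, ‖ζ‖ ≤ 1 → (∀ y, ‖ζ y‖ ≤ δ) → ‖⟪v, ζ⟫_ℂ‖ ≤ ε := by
  have h1 := hasSum_dl v
  have h2 : ∀ᶠ s : Finset X in atTop, dist (∑ x ∈ s, v x • (dl x : L2 X)) v < ε / 2 :=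
    (Metric.tendsto_nhds.1 h1) _ (by positivity)
  obtain ⟨s, hs⟩ := h2.exists
  set C : ℝ := ∑ x ∈ s, ‖v x‖ + 1 with hC
  have hC0 : 0 < C := by positivity
  have h3 : ∀ᶠ δ in 𝓝[>] (0:ℝ), δ < ε / 2 / C :=
    mem_nhdsWithin_of_mem_nhds (Iio_mem_nhds (by positivity))
  filter_upwards [h3, self_mem_nhdsWithin] with δ hδ hδ0 ζ hζ hζ'
  have hδ0' : 0 < δ := hδ0
  set w : L2 X := ∑ x ∈ s, v x • (dl x : L2 X) with hw
  have h4 : ⟪v, ζ⟫_ℂ = ⟪v - w, ζ⟫_ℂ + ⟪w, ζ⟫_ℂ := by rw [← inner_add_left, sub_add_cancel]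
  have h5 : ‖⟪v - w, ζ⟫_ℂ‖ ≤ ε / 2 := by
    refine (norm_inner_le_norm _ _).trans ?_
    rw [dist_comm, dist_eq_norm] at hs
    calc ‖v - w‖ * ‖ζ‖ ≤ (ε / 2) * 1 := by gcongr
      _ = ε / 2 := mul_one _
  have h6 : ‖⟪w, ζ⟫_ℂ‖ ≤ ε / 2 := by
    rw [hw, sum_inner]
    refine (norm_sum_le _ _).trans ?_
    calc ∑ x ∈ s, ‖⟪v x • (dl x : L2 X), ζ⟫_ℂ‖ ≤ ∑ x ∈ s, ‖v x‖ * δ := by
          refine Finset.sum_le_sum fun x _ => ?_
          rw [inner_smul_left, inner_dl, norm_mul, RCLike.norm_conj]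
          gcongr
          exact hζ' x
      _ = (∑ x ∈ s, ‖v x‖) * δ := by rw [Finset.sum_mul]
      _ ≤ C * (ε / 2 / C) := by
          gcongr
          linarith
      _ = ε / 2 := by field_simp
  rw [h4]
  exact (norm_add_le _ _).trans (by linarith)

theorem small_proj {X : Type} {r : B X} (hr : star r = r) (hr2 : r * r = r)
    (hc : IsCompactOperator r) {ε : ℝ} (hε : 0 < ε) :
    ∃ δ : ℝ, 0 < δ ∧ ∀ ζ : L2 X, ‖ζ‖ ≤ 1 → (∀ y, ‖ζ y‖ ≤ δ) → ‖r ζ‖ ≤ ε := by
  have h1 := (hc.isCompact_closure_image_closedBall (f := r.toLinearMap) 1).totallyBounded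
  obtain ⟨t, ht, hcov⟩ := Metric.totallyBounded_iff.1 h1 (ε ^ 2 / 2) (by positivity)
  have h2 : ∀ᶠ δ in 𝓝[>] (0:ℝ), ∀ v ∈ t, ∀ ζ : L2 X, ‖ζ‖ ≤ 1 → (∀ y, ‖ζ y‖ ≤ δ) →
      ‖⟪v, ζ⟫_ℂ‖ ≤ ε ^ 2 / 2 :=
    (eventually_all_finite ht).2 fun v _ => small_inner v (by positivity)
  obtain ⟨δ, hδ, hδ0⟩ := (h2.and self_mem_nhdsWithin).exists
  refine ⟨δ, hδ0, fun ζ hζ hζ' => ?_⟩
  have h3 : r ζ ∈ closure (r.toLinearMap '' Metric.closedBall 0 1) :=
    subset_closure ⟨ζ, by simpa using hζ, rfl⟩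
  obtain ⟨v, hv, hv'⟩ := Set.mem_iUnion₂.1 (hcov h3)
  have h4 : ⟪r ζ, ζ⟫_ℂ = ⟪r ζ, r ζ⟫_ℂ := by
    conv_lhs => rw [← hr2, mul_apply_eq_comp]
    nth_rewrite 1 [← hr]
    rw [ContinuousLinearMap.star_eq_adjoint, ContinuousLinearMap.adjoint_inner_left]
  have h5 : ‖r ζ‖ ^ 2 = ‖⟪r ζ, ζ⟫_ℂ‖ := by
    rw [h4, inner_self_eq_norm_sq_to_K]
    simp
  have h6 : ⟪r ζ, ζ⟫_ℂ = ⟪r ζ - v, ζ⟫_ℂ + ⟪v, ζ⟫_ℂ := by rw [← inner_add_left, sub_add_cancel]
  have h7 : ‖⟪r ζ - v, ζ⟫_ℂ‖ ≤ ε ^ 2 / 2 := by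
    refine (norm_inner_le_norm _ _).trans ?_
    rw [Metric.mem_ball, dist_eq_norm] at hv'
    calc ‖r ζ - v‖ * ‖ζ‖ ≤ (ε ^ 2 / 2) * 1 := by gcongr
      _ = ε ^ 2 / 2 := mul_one _
  have h8 : ‖r ζ‖ ^ 2 ≤ ε ^ 2 := by
    rw [h5, h6]
    exact (norm_add_le _ _).trans (by linarith [hδ v hv ζ hζ hζ'])
  exact (sq_le_sq₀ (norm_nonneg _) hε.le).1 h8

theorem norm_Ph_le (a : B ℕ) : ‖Ph a‖ ≤ ‖a‖ := by
  have hU : ‖U‖ ≤ 1 := uv_orth.orthogonalFamily.linearIsometry.norm_toContinuousLinearMap_le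
  have ha : ‖am a‖ ≤ ‖a‖ := norm_ampF_le _ _
  calc ‖Ph a‖ ≤ ‖U‖ * ‖am a‖ * ‖star U‖ :=
        (norm_mul_le _ _).trans (by gcongr; exact norm_mul_le _ _)
    _ ≤ 1 * ‖a‖ * 1 := by
        have h : ‖star U‖ = ‖U‖ := by
          rw [ContinuousLinearMap.star_eq_adjoint]
          exact ContinuousLinearMap.adjoint.norm_map U
        rw [h]
        gcongr
    _ = ‖a‖ := by ring

theorem norm_mu {X : Type} (x y : X) : ‖mu x y‖ = 1 := by
  rw [mu, InnerProductSpace.norm_rankOne, norm_dl, norm_dl, mul_one]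

/-- the key lemma -/
theorem key {p : B (ℕ × ℕ)} (hp : p ∈ @UR (ℕ × ℕ) gY.metric) (hs : star p = p) (h2 : p * p = p)
    (hcomm : ∀ x x', p * Ph (mu x x') = Ph (mu x x') * p)
    (hc : IsCompactOperator (p * Ph (mu 0 0) * p)) : p * Ph (mu 0 0) * p = 0 := by
  classical
  set r := p * Ph (mu 0 0) * p with hr
  have hq : Ph (mu 0 0) * Ph (mu 0 0) = Ph (mu 0 0) := by rw [← Ph_mul, mu_mul]
  have hr1 : r = p * Ph (mu 0 0) := by rw [hr, mul_assoc, ← hcomm, ← mul_assoc, h2]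
  have hr1' : r = Ph (mu 0 0) * p := by rw [hr1, hcomm]
  have hrs : star r = r := by
    rw [hr, star_mul, star_mul, hs, ← Ph_star, star_mu, mul_assoc]
  have hr2 : r * r = r := by
    calc r * r = p * (Ph (mu 0 0) * Ph (mu 0 0)) * p := by
          nth_rewrite 1 [hr1]
          rw [hr1']
          simp only [mul_assoc]
      _ = r := by rw [hq]
  by_contra hne
  obtain ⟨v, hv⟩ : ∃ v, r v ≠ 0 := by
    by_contra h
    push Not at h
    exact hne (ContinuousLinearMap.ext h)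
  set ξ : L2 (ℕ × ℕ) := ((‖r v‖⁻¹ : ℝ) : ℂ) • r v with hξ
  have hξ1 : ‖ξ‖ = 1 := by
    rw [hξ, norm_smul, Complex.norm_real, norm_inv, norm_norm,
      inv_mul_cancel₀ (norm_ne_zero_iff.2 hv)]
  have hξ2 : r ξ = ξ := by
    rw [hξ, map_smul, ← mul_apply_eq_comp, hr2]
  have hξ3 : p ξ = ξ := by
    conv_lhs => rw [← hξ2, ← mul_apply_eq_comp, hr1, ← mul_assoc, h2, ← hr1]
    exact hξ2
  have hξ4 : Ph (mu 0 0) ξ = ξ := by
    conv_lhs => rw [← hξ2, ← mul_apply_eq_comp, hr1', ← mul_assoc, hq, ← hr1']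
    exact hξ2
  obtain ⟨T, hT, hpT⟩ := Metric.mem_closure_iff.1 hp (1 / 4) (by norm_num)
  rw [dist_eq_norm] at hpT
  obtain ⟨k, hk⟩ := gauge_of_mem_FP gY hT
  obtain ⟨δ, hδ, hδ'⟩ := small_proj hrs hr2 hc (ε := 1 / (4 * 2 ^ k)) (by positivity)
  obtain ⟨n, hn1, hn2⟩ : ∃ n, k ≤ n ∧ 1 / Real.sqrt (2 ^ n) ≤ δ := by
    obtain ⟨m, hm⟩ := exists_nat_ge (1 / δ ^ 2)
    refine ⟨k + m, by omega, ?_⟩
    have h1 : (m : ℝ) ≤ 2 ^ (k + m) := by
      have : m ≤ 2 ^ (k + m) :=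
        Nat.lt_two_pow_self.le.trans (Nat.pow_le_pow_right (by norm_num) (by omega))
      exact_mod_cast this
    have h3 : 1 / δ ≤ Real.sqrt (2 ^ (k + m)) := by
      apply Real.le_sqrt_of_sq_le
      rw [div_pow, one_pow]
      linarith
    rw [div_le_iff₀ (by positivity)]
    rw [div_le_iff₀ hδ] at h3
    linarith
  -- ghost estimate
  have hghost : ∀ y : ℕ × ℕ, y.1 = n → ‖p (dl y)‖ ≤ 1 / (4 * 2 ^ k) := by
    intro y hy
    have h1 : p (dl y) = Ph (mu n 0) (r (Ph (mu 0 n) (dl y))) := by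
      have h3 : Ph (mu n 0) * r * Ph (mu 0 n) = p * cut (fib n) := by
        rw [hr1', ← mul_assoc, ← Ph_mul, mu_mul, ← hcomm, mul_assoc, ← Ph_mul, mu_mul, Ph_mu_self]
      have h4 := congrArg (fun S : B (ℕ × ℕ) => S (dl y)) h3
      simp only [mul_apply_eq_comp] at h4
      rw [h4, cut_dl, if_pos (show y ∈ fib n from hy)]
    rw [h1]
    refine ((Ph (mu n 0)).le_opNorm _).trans ?_
    have h5 : ‖Ph (mu n 0)‖ ≤ 1 := (norm_Ph_le _).trans (norm_mu _ _).le
    have h6 : ‖r (Ph (mu 0 n) (dl y))‖ ≤ 1 / (4 * 2 ^ k) := by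
      apply hδ'
      · refine ((Ph (mu 0 n)).le_opNorm _).trans ?_
        rw [norm_dl, mul_one]
        exact (norm_Ph_le _).trans (norm_mu _ _).le
      · intro y'
        exact (norm_Ph_mu n y y').trans hn2
    calc ‖Ph (mu n 0)‖ * ‖r (Ph (mu 0 n) (dl y))‖ ≤ 1 * (1 / (4 * 2 ^ k)) := by gcongr
      _ = _ := one_mul _
  -- the block estimate
  have hblock : ‖T * cut (fib n)‖ ≤ 1 / 2 := by
    apply norm_le_of_blocks (fun y : ℕ × ℕ => (y.1, y.2 / 2 ^ k)) (by norm_num)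
    · intro x y hxy
      rw [ent_mul_cut] at hxy
      have h1 : y ∈ fib n := by
        by_contra h
        exact hxy (if_neg h)
      rw [if_pos h1] at hxy
      obtain ⟨h3, h4⟩ := hk x y hxy
      have h5 : y.1 = n := h1
      have h6 : x.1 = y.1 := by
        rcases h3 with h3 | h3
        · exact h3
        · omega
      exact Prod.ext h6 h4
    · rintro ⟨j1, j2⟩ ζ hζ
      rw [mul_apply_eq_comp]
      set ζ' := cut (fib n) ζ with hζ'
      have h1 : ‖ζ'‖ ≤ ‖ζ‖ := norm_cut_apply_le _ _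
      set s : Finset (ℕ × ℕ) := (Finset.range (2 ^ k)).image fun i => (n, j2 * 2 ^ k + i) with hs
      have hp2 : 0 < 2 ^ k := by positivity
      have h3 : ζ' = ∑ y ∈ s, ζ' y • dl y := by
        apply eq_sum_of_support
        intro y hy
        rw [hζ', cut_apply]
        split_ifs with h
        · apply hζ
          intro h4
          apply hy
          have h5 : y.2 / 2 ^ k = j2 := congrArg Prod.snd h4
          rw [hs, Finset.mem_image]
          refine ⟨y.2 % 2 ^ k, Finset.mem_range.2 (Nat.mod_lt _ hp2), Prod.ext (Eq.symm h) ?_⟩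
          simp only
          rw [← h5, mul_comm]
          exact Nat.div_add_mod _ _
        · rfl
      have h4 : ‖p ζ'‖ ≤ 1 / 4 * ‖ζ'‖ := by
        conv_lhs => rw [h3, map_sum]
        refine (norm_sum_le _ _).trans ?_
        calc ∑ y ∈ s, ‖p (ζ' y • dl y)‖ ≤ ∑ _y ∈ s, ‖ζ'‖ * (1 / (4 * 2 ^ k)) := by
              refine Finset.sum_le_sum fun y hy => ?_
              rw [map_smul, norm_smul]
              have h5 : y.1 = n := by
                rw [hs, Finset.mem_image] at hy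
                obtain ⟨i, _, rfl⟩ := hy
                rfl
              gcongr
              · exact lp.norm_apply_le_norm (by norm_num) ζ' y
              · exact hghost y h5
          _ = s.card * (‖ζ'‖ * (1 / (4 * 2 ^ k))) := by rw [Finset.sum_const, nsmul_eq_mul]
          _ ≤ 2 ^ k * (‖ζ'‖ * (1 / (4 * 2 ^ k))) := by
              gcongr
              have : s.card ≤ 2 ^ k := Finset.card_image_le.trans (by simp)
              exact_mod_cast this
          _ = 1 / 4 * ‖ζ'‖ := by field_simp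
      have h5 : ‖(p - T) ζ'‖ ≤ 1 / 4 * ‖ζ'‖ :=
        ((p - T).le_opNorm _).trans (by gcongr)
      have h6 : T ζ' = p ζ' - (p - T) ζ' := by simp
      rw [h6]
      refine (norm_sub_le _ _).trans ?_
      linarith
  set η := Ph (mu n 0) ξ with hη
  have hη1 : p η = η := by
    rw [hη, ← mul_apply_eq_comp, hcomm, mul_apply_eq_comp, hξ3]
  have hη2 : cut (fib n) η = η := by
    rw [hη, ← mul_apply_eq_comp, ← Ph_mu_self, ← Ph_mul, mu_mul]
  have hη3 : ‖η‖ = 1 := by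
    have h1 : ⟪η, η⟫_ℂ = ⟪ξ, ξ⟫_ℂ := by
      rw [hη, ← ContinuousLinearMap.adjoint_inner_right, ← ContinuousLinearMap.star_eq_adjoint,
        ← Ph_star, star_mu, ← mul_apply_eq_comp, ← Ph_mul, mu_mul, hξ4]
    rw [inner_self_eq_norm_sq_to_K, inner_self_eq_norm_sq_to_K, hξ1] at h1
    have h3 : ‖η‖ ^ 2 = 1 ^ 2 := by exact_mod_cast h1
    exact (sq_eq_sq₀ (norm_nonneg _) zero_le_one).1 h3
  have h7 : η = (p - T) η + (T * cut (fib n)) η := by
    rw [mul_apply_eq_comp, hη2]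
    simp [hη1]
  have h8 : ‖(p - T) η‖ ≤ 1 / 4 := by
    refine ((p - T).le_opNorm _).trans ?_
    rw [hη3, mul_one]
    exact hpT.le
  have h9 : ‖(T * cut (fib n)) η‖ ≤ 1 / 2 := by
    refine ((T * cut (fib n)).le_opNorm _).trans ?_
    rw [hη3, mul_one]
    exact hblock
  have h10 := norm_add_le ((p - T) η) ((T * cut (fib n)) η)
  rw [← h7, hη3] at h10
  linarith

open RoeDefs

theorem Roe_eq (X : Type) [MetricSpace X] : Roe X = UR X := by
  classical
  apply adjoin_eq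
  ext a
  simp only [finProp, FP, Set.mem_ofPred_eq, ent_eq_inner]
  rfl

theorem ulf_of_gauge {X : Type} (g : Gauge X)
    (h : ∀ k, ∃ N : ℕ, ∀ x, ∃ s : Finset X, s.card ≤ N ∧ ∀ y, g.R k y x → y ∈ s) :
    @ULF X g.metric := by
  intro r _
  obtain ⟨N, hN⟩ := h ⌊r⌋₊
  refine ⟨N, fun x => ?_⟩
  obtain ⟨s, hs, hs'⟩ := hN x
  have : @Metric.closedBall X g.metric.toPseudoMetricSpace x r ⊆ s := fun y hy =>
    hs' y (g.rel_of_dist_le hy)
  refine (Set.encard_le_encard this).trans ?_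
  rw [Set.encard_coe_eq_coe_finsetCard]
  exact_mod_cast hs

theorem ulf_X : @ULF ℕ gX.metric := by
  refine ulf_of_gauge gX fun k => ⟨k + 1, fun x => ⟨insert x (Finset.range k), ?_, ?_⟩⟩
  · exact (Finset.card_insert_le _ _).trans (by simp)
  · intro y hy
    rcases hy with h | h
    · simp [h]
    · simp [h.1]

theorem ulf_Y : @ULF (ℕ × ℕ) gY.metric := by
  refine ulf_of_gauge gY fun k => ⟨(k + 1) * 2 ^ k, fun x =>
    ⟨insert x.1 (Finset.range k) ×ˢ
      (Finset.range (2 ^ k)).image (fun i => x.2 / 2 ^ k * 2 ^ k + i), ?_, ?_⟩⟩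
  · rw [Finset.card_product]
    apply Nat.mul_le_mul
    · exact (Finset.card_insert_le _ _).trans (by simp)
    · exact Finset.card_image_le.trans (by simp)
  · rintro y ⟨h1, h2⟩
    rw [Finset.mem_product]
    constructor
    · rcases h1 with h | h
      · simp [h]
      · simp [h.1]
    · rw [Finset.mem_image]
      refine ⟨y.2 % 2 ^ k, Finset.mem_range.2 (Nat.mod_lt _ (by positivity)), ?_⟩
      rw [← h2, mul_comm]
      exact Nat.div_add_mod _ _

theorem propA_Y : @PropertyA (ℕ × ℕ) gY.metric := by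
  classical
  intro R ε hR hε
  set k := ⌊R⌋₊ with hk
  let c : ℕ × ℕ → ℕ × ℕ := fun y => (if y.1 < k then 0 else y.1, y.2 / 2 ^ k * 2 ^ k)
  refine ⟨k + 1, by positivity, fun y => lp.single 1 (c y) (1 : ℝ), ?_, ?_, ?_, ?_⟩
  · intro x y
    rw [lp.single_apply]
    by_cases h : y = c x
    · subst h; simp
    · simp [h]
  · intro x
    rw [lp.norm_single (by norm_num)]
    simp
  · intro x y hxy
    have h : y = c x := by
      by_contra h
      exact hxy (lp.single_apply_ne _ _ _ h)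
    have h1 : gY.R k y x := by
      rw [h]
      refine ⟨?_, ?_⟩
      · simp only [c, gX]
        split_ifs with h2
        · right; omega
        · left; rfl
      · simp only [c]
        rw [Nat.mul_div_cancel _ (by positivity)]
    have h2 := gY.dist_le_nat.2 h1
    exact h2.trans (by linarith)
  · intro x y hxy
    obtain ⟨h1, h2⟩ := gY.rel_of_dist_le hxy
    have : c x = c y := by
      refine Prod.ext ?_ ?_
      · simp only [c]
        rcases h1 with h | h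
        · rw [h]
        · rw [if_pos h.1, if_pos h.2]
      · simp only [c]
        rw [h2]
    simp only [this, sub_self, norm_zero]
    exact hε.le

/-- the embedding as a star homomorphism -/
noncomputable def PhHom :
    (@Roe ℕ gX.metric) →⋆ₙₐ[ℂ] (@Roe (ℕ × ℕ) gY.metric) where
  toFun a := ⟨Ph a, by
    rw [@Roe_eq _ gY.metric]
    exact Ph_UR (by rw [← @Roe_eq _ gX.metric]; exact a.2)⟩
  map_smul' c a := Subtype.ext (Ph_smul c a)
  map_zero' := Subtype.ext (by simp [Ph])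
  map_add' a b := Subtype.ext (Ph_add a b)
  map_mul' a b := Subtype.ext (Ph_mul a b)
  map_star' a := Subtype.ext (Ph_star a)

theorem compact_of_rankOne {X : Type} {q : Op X} (h : IsRankOneProj q) : IsCompactOperator q := by
  have h1 : Module.Finite ℂ (LinearMap.range q.toLinearMap) := by
    apply Module.finite_of_rank_eq_one h.2
  have h3 : ProperSpace (LinearMap.range q.toLinearMap) := FiniteDimensional.proper ℂ _
  have h2 : IsCompactOperator (q.codRestrict (LinearMap.range q.toLinearMap)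
      (fun x => LinearMap.mem_range_self _ x)) :=
    isCompactOperator_of_locallyCompactSpace_dom _
  exact h2.clm_comp (LinearMap.range q.toLinearMap).subtypeL

theorem rankOne_mu {X : Type} (x : X) : IsRankOneProj (mu x x) := by
  have h : (dl x : L2 X) ≠ 0 := by
    intro h
    have := norm_dl x
    rw [h] at this
    simp at this
  exact ⟨InnerProductSpace.isStarProjection_rankOne_self (norm_dl x),
    InnerProductSpace.rank_rankOne h h⟩

theorem main : ∃ (X Y : Type) (_ : MetricSpace X) (_ : MetricSpace Y),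
    ULF X ∧ ULF Y ∧ PropertyA Y ∧
    ∃ Φ : Roe X →⋆ₙₐ[ℂ] Roe Y, Function.Injective Φ ∧
      ∀ p : Roe Y, IsStarProjection p → (∀ a : Roe X, p * Φ a = Φ a * p) →
        ¬ (Function.Injective (fun a : Roe X => p * Φ a * p) ∧
            RankPreserving (fun a : Roe X => p * Φ a * p)) ∧
        ¬ (Function.Injective (fun a : Roe X => p * Φ a * p) ∧
            CompactPreserving (fun a : Roe X => p * Φ a * p)) := by
  letI := gX.metric
  letI := gY.metric
  refine ⟨ℕ, ℕ × ℕ, gX.metric, gY.metric, ulf_X, ulf_Y, propA_Y, PhHom, ?_, ?_⟩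
  · intro a b hab
    exact Subtype.ext (Ph_inj (congrArg Subtype.val hab))
  · intro p hp hcomm
    have hm : ∀ x x', mu x x' ∈ @Roe ℕ gX.metric := fun x x' => by
      rw [@Roe_eq _ gX.metric]
      exact @FP_sub_UR _ gX.metric _ (@mu_mem_FP _ gX.metric x x')
    have hkey : Function.Injective (fun a : @Roe ℕ gX.metric => p * PhHom a * p) →
        ¬ IsCompactOperator ((p * PhHom ⟨mu 0 0, hm 0 0⟩ * p : @Roe _ gY.metric) : Op (ℕ × ℕ)) := by
      intro hinj hc
      have h1 := key (p := p) (by rw [← @Roe_eq _ gY.metric]; exact p.2)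
        (congrArg Subtype.val hp.isSelfAdjoint) (congrArg Subtype.val hp.isIdempotentElem)
        (fun x x' => congrArg Subtype.val (hcomm ⟨mu x x', hm x x'⟩)) hc
      have h2 : (⟨mu 0 0, hm 0 0⟩ : @Roe ℕ gX.metric) = 0 := by
        apply hinj
        simp only [map_zero, mul_zero, zero_mul]
        exact Subtype.ext h1
      have h3 : mu (0:ℕ) 0 = 0 := congrArg Subtype.val h2
      have h4 := norm_mu (0:ℕ) 0
      rw [h3] at h4
      simp at h4
    refine ⟨fun h => hkey h.1 ?_, fun h => hkey h.1 ?_⟩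
    · exact compact_of_rankOne (h.2 _ (rankOne_mu 0))
    · exact h.2 _ (compact_of_rankOne (rankOne_mu 0))

end Pool.Agent.H596Z.Roe
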