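import Pool.Agent.H596Z.Roe.Basic

/-!
The twisted amplification `a ↦ U (a ⊗ 1) U*`, where `U` acts on the `n`-th fibre by discrete
Fourier transforms on blocks of size `2 ^ n`.
-/

set_option autoImplicit false
set_option linter.unusedSectionVars false

namespace Pool.Agent.H596Z.Roe

open scoped InnerProductSpace ENNReal
open Pool.Agent.H812R3.KP

/-- the sparse space -/
def gX : Gauge ℕ where
  R k x y := x = y ∨ (x < k ∧ y < k)
  refl _ := Or.inl rfl
  eq0 x y h := by omega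
  symm k x y h := by omega
  mono k l x y hkl h := by omega
  trans k l x y z h1 h2 := by omega
  total x y := ⟨x + y + 1, by omega⟩

theorem div_pow_mono {z w k l : ℕ} (hkl : k ≤ l) (h : z / 2 ^ k = w / 2 ^ k) :
    z / 2 ^ l = w / 2 ^ l := by
  obtain ⟨d, rfl⟩ := Nat.exists_eq_add_of_le hkl
  rw [pow_add, ← Nat.div_div_eq_div_mul, ← Nat.div_div_eq_div_mul, h]

/-- the ultrametric space -/
def gY : Gauge (ℕ × ℕ) where
  R k y y' := gX.R k y.1 y'.1 ∧ y.2 / 2 ^ k = y'.2 / 2 ^ k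
  refl y := ⟨gX.refl _, rfl⟩
  eq0 y y' h := Prod.ext (gX.eq0 _ _ h.1) (by simpa using h.2)
  symm k y y' h := ⟨gX.symm _ _ _ h.1, h.2.symm⟩
  mono k l y y' hkl h := ⟨gX.mono _ _ _ _ hkl h.1, div_pow_mono hkl h.2⟩
  trans k l x y z h1 h2 := ⟨gX.trans _ _ _ _ _ h1.1 h2.1,
    (div_pow_mono (Nat.le_add_right k l) h1.2).trans (div_pow_mono (Nat.le_add_left l k) h2.2)⟩
  total y y' := by
    refine ⟨y.1 + y'.1 + 1 + y.2 + y'.2, Or.inr ⟨by omega, by omega⟩, ?_⟩
    have h : ∀ a n : ℕ, a ≤ n → a / 2 ^ n = 0 := fun a n h =>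
      Nat.div_eq_of_lt (lt_of_le_of_lt h Nat.lt_two_pow_self)
    rw [h _ _ (by omega), h _ _ (by omega)]

/-- the root of unity -/
noncomputable def om (n : ℕ) : ℂ := Complex.exp (2 * Real.pi * Complex.I / ((2 ^ n : ℕ) : ℂ))

theorem om_prim (n : ℕ) : IsPrimitiveRoot (om n) (2 ^ n) :=
  Complex.isPrimitiveRoot_exp _ (by positivity)

theorem norm_om (n : ℕ) : ‖om n‖ = 1 := (om_prim n).norm'_eq_one (by positivity)

theorem om_ne (n : ℕ) : om n ≠ 0 := by
  intro h
  have := norm_om n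
  rw [h] at this
  simp at this

theorem conj_om (n : ℕ) : (starRingEnd ℂ) (om n) = (om n)⁻¹ :=
  (Complex.inv_eq_conj (norm_om n)).symm

/-- the block of a point -/
def blk (y : ℕ × ℕ) : Finset (ℕ × ℕ) :=
  (Finset.range (2 ^ y.1)).image fun r => (y.1, y.2 / 2 ^ y.1 * 2 ^ y.1 + r)

theorem mem_blk {y w : ℕ × ℕ} : w ∈ blk y ↔ w.1 = y.1 ∧ w.2 / 2 ^ y.1 = y.2 / 2 ^ y.1 := by
  have hp : 0 < 2 ^ y.1 := by positivity
  simp only [blk, Finset.mem_image, Finset.mem_range]
  constructor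
  · rintro ⟨r, hr, rfl⟩
    refine ⟨rfl, ?_⟩
    simp only
    rw [mul_comm, Nat.mul_add_div hp, Nat.div_eq_of_lt hr, add_zero]
  · rintro ⟨h1, h2⟩
    refine ⟨w.2 % 2 ^ y.1, Nat.mod_lt _ hp, Prod.ext h1.symm ?_⟩
    simp only
    rw [← h2, mul_comm]
    exact Nat.div_add_mod _ _

theorem blk_symm {y w : ℕ × ℕ} (h : w ∈ blk y) : y ∈ blk w := by
  rw [mem_blk] at h ⊢
  rw [h.1]
  exact ⟨rfl, h.2.symm⟩

theorem blk_eq {y w : ℕ × ℕ} (h : w ∈ blk y) : blk w = blk y := by
  rw [mem_blk] at h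
  ext v
  rw [mem_blk, mem_blk, h.1, h.2]

theorem self_mem_blk (y : ℕ × ℕ) : y ∈ blk y := mem_blk.2 ⟨rfl, rfl⟩

/-- the kernel -/
noncomputable def K (w y : ℕ × ℕ) : ℂ :=
  if w ∈ blk y then om y.1 ^ (w.2 * y.2) / (Real.sqrt (2 ^ y.1) : ℂ) else 0

theorem K_symm (w y : ℕ × ℕ) : K w y = K y w := by
  unfold K
  by_cases h : w ∈ blk y
  · rw [if_pos h, if_pos (blk_symm h), (mem_blk.1 h).1, mul_comm]
  · rw [if_neg h, if_neg (fun h' => h (blk_symm h'))]

theorem K_ne {w y : ℕ × ℕ} (h : K w y ≠ 0) : w ∈ blk y := by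
  by_contra h1
  exact h (if_neg h1)

theorem norm_K (w y : ℕ × ℕ) : ‖K w y‖ ≤ 1 / Real.sqrt (2 ^ y.1) := by
  unfold K
  split_ifs
  · rw [norm_div, norm_pow, norm_om, one_pow, Complex.norm_real, Real.norm_eq_abs,
      abs_of_nonneg (Real.sqrt_nonneg _)]
  · simp

theorem K_orth (y y' : ℕ × ℕ) :
    ∑ w ∈ blk y, (starRingEnd ℂ) (K w y) * K w y' = if y = y' then 1 else 0 := by
  by_cases hb : y' ∈ blk y
  swap
  · rw [if_neg (by rintro rfl; exact hb (self_mem_blk _))]
    refine Finset.sum_eq_zero fun w hw => ?_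
    have : K w y' = 0 := by
      by_contra h
      have h1 := K_ne h
      apply hb
      rw [← blk_eq hw]
      exact blk_symm h1
    rw [this, mul_zero]
  obtain ⟨n, z⟩ := y
  obtain ⟨n', z'⟩ := y'
  obtain ⟨h1, h2⟩ := mem_blk.1 hb
  simp only at h1 h2
  subst h1
  have hp : 0 < 2 ^ n' := by positivity
  have hs : ((Real.sqrt (2 ^ n') : ℝ) : ℂ) * (Real.sqrt (2 ^ n') : ℝ) = ((2 ^ n' : ℕ) : ℂ) := by
    rw [← Complex.ofReal_mul, Real.mul_self_sqrt (by positivity)]
    push_cast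
    rfl
  have hs0 : ((Real.sqrt (2 ^ n') : ℝ) : ℂ) ≠ 0 := by
    intro h
    rw [h, mul_zero] at hs
    exact absurd hs.symm (Nat.cast_ne_zero.2 hp.ne')
  set ζ : ℂ := om n' ^ z' * (om n' ^ z)⁻¹ with hζ
  have hterm : ∀ w ∈ blk (n', z), (starRingEnd ℂ) (K w (n', z)) * K w (n', z')
      = ζ ^ w.2 / ((2 ^ n' : ℕ) : ℂ) := by
    intro w hw
    have hw' : w ∈ blk (n', z') := by rw [blk_eq hb]; exact hw
    unfold K
    rw [if_pos hw, if_pos hw']
    simp only [map_div₀, map_pow, conj_om, Complex.conj_ofReal]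
    rw [← hs, hζ, mul_pow, ← pow_mul, inv_pow, inv_pow, ← pow_mul, mul_comm z', mul_comm z]
    field_simp
  rw [Finset.sum_congr rfl hterm, blk, Finset.sum_image (by
    intro a _ b _ hab
    simpa using hab)]
  simp only
  have hζ1 : ζ ^ (2 ^ n') = 1 := by
    rw [hζ, mul_pow, inv_pow, ← pow_mul, ← pow_mul, mul_comm z', mul_comm z, pow_mul, pow_mul,
      (om_prim n').pow_eq_one]
    simp
  have hterm2 : ∀ r, ζ ^ (z / 2 ^ n' * 2 ^ n' + r) = ζ ^ r := by
    intro r
    rw [pow_add, mul_comm (z / 2 ^ n'), pow_mul, hζ1, one_pow, one_mul]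
  simp only [hterm2]
  rw [← Finset.sum_div]
  by_cases hz : z = z'
  · subst hz
    have : ζ = 1 := by rw [hζ, mul_inv_cancel₀ (pow_ne_zero _ (om_ne n'))]
    rw [this, if_pos rfl]
    simp
  · rw [if_neg (by simpa using hz)]
    have hne : ζ ≠ 1 := by
      intro h
      rw [hζ, mul_inv_eq_one₀ (pow_ne_zero _ (om_ne n'))] at h
      have h3 : om n' ^ (z' % 2 ^ n') = om n' ^ (z % 2 ^ n') := by
        rw [← pow_mod_orderOf, ← (om_prim n').eq_orderOf] at h
        rw [h, ← pow_mod_orderOf (om n') z, ← (om_prim n').eq_orderOf]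
      have h4 := (om_prim n').pow_inj (Nat.mod_lt _ hp) (Nat.mod_lt _ hp) h3
      apply hz
      rw [← Nat.div_add_mod z (2 ^ n'), ← Nat.div_add_mod z' (2 ^ n'), h2, h4]
    have h5 := geom_sum_eq hne (2 ^ n')
    rw [h5, hζ1]
    simp

/-- the new basis vectors -/
noncomputable def uv (y : ℕ × ℕ) : L2 (ℕ × ℕ) := ∑ w ∈ blk y, K w y • dl w

theorem uv_apply (y w : ℕ × ℕ) : (uv y) w = K w y := by
  rw [← inner_dl, uv, inner_sum]
  simp only [inner_smul_right, inner_dl, dl_apply]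
  by_cases h : w ∈ blk y
  · rw [Finset.sum_eq_single w]
    · simp
    · intro b _ hb
      rw [if_neg (fun h => hb h.symm), mul_zero]
    · intro h'
      exact absurd h h'
  · rw [K, if_neg h]
    refine Finset.sum_eq_zero fun b hb => ?_
    rw [if_neg, mul_zero]
    rintro rfl
    exact h hb

theorem uv_orth : Orthonormal ℂ uv := by
  rw [orthonormal_iff_ite]
  intro y y'
  rw [← K_orth]
  conv_lhs => rw [uv, sum_inner]
  refine Finset.sum_congr rfl fun w _ => ?_
  rw [inner_smul_left, inner_dl, uv_apply]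

/-- the unitary -/
noncomputable def U : B (ℕ × ℕ) :=
  uv_orth.orthogonalFamily.linearIsometry.toContinuousLinearMap

theorem U_dl (y : ℕ × ℕ) : U (dl y) = uv y := by
  rw [← dl_eq_single]
  simp [U]

theorem ent_U (w y : ℕ × ℕ) : ent U w y = K w y := by
  rw [ent, U_dl, uv_apply]

theorem star_U_mul : star U * U = 1 := by
  apply ent_ext
  intro y y'
  rw [ent_eq_inner, mul_apply_eq_comp, ContinuousLinearMap.star_eq_adjoint,
    ContinuousLinearMap.adjoint_inner_right, U_dl, U_dl, ent_one]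
  exact orthonormal_iff_ite.1 uv_orth y y'

theorem U_mul_star : U * star U = 1 := by
  apply ent_ext
  intro y y'
  have h1 := ent_mul U (star U) y y'
  have h2 : HasSum (fun z => ent U y z * ent (star U) z y')
      (∑ w ∈ blk y', (starRingEnd ℂ) (K w y') * K w y) := by
    have : (fun z => ent U y z * ent (star U) z y')
        = fun w => (starRingEnd ℂ) (K w y') * K w y := by
      funext w
      rw [ent_star, ent_U, ent_U, K_symm y w, K_symm y' w, mul_comm]
    rw [this]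
    refine hasSum_sum_of_ne_finset_zero fun w hw => ?_
    rw [K, if_neg hw]
    simp
  rw [h1.unique h2, K_orth, ent_one]
  simp only [eq_comm]

/-- the fibre -/
def fib (n : ℕ) : Set (ℕ × ℕ) := {y | y.1 = n}

theorem U_cut (n : ℕ) : U * cut (fib n) = cut (fib n) * U := by
  classical
  apply ent_ext
  intro w y
  rw [ent_mul_cut, ent_cut_mul, ent_U]
  by_cases h : K w y = 0
  · simp [h]
  · have := (mem_blk.1 (K_ne h)).1
    by_cases h1 : y.1 = n <;> simp [fib, this, h1]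

theorem star_U_cut (n : ℕ) : star U * cut (fib n) = cut (fib n) * star U := by
  have := congrArg star (U_cut n)
  rw [star_mul, star_mul, star_cut] at this
  exact this.symm

theorem U_cut_zero : U * cut (fib 0) = cut (fib 0) := by
  classical
  apply ent_ext
  intro w y
  rw [ent_mul_cut, ent_cut, ent_U]
  obtain ⟨n, z⟩ := y
  obtain ⟨n', z'⟩ := w
  by_cases h : n = 0
  · subst h
    unfold K
    simp only [mem_blk, fib]
    have : om 0 = 1 := by simp [om]
    by_cases h1 : n' = 0 <;> by_cases h2 : z' = z <;> simp [h1, h2, this]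
  · have h2 : ¬ (n' = n ∧ z' = z ∧ n' = 0) := by omega
    simp only [fib, Set.mem_ofPred_eq, h, if_false, Prod.mk.injEq]
    rw [if_neg (by omega)]

/-- `a ⊗ 1` -/
noncomputable def am : B ℕ →L[ℂ] B (ℕ × ℕ) := amp (Equiv.refl (ℕ × ℕ))

theorem ent_am (a : B ℕ) (y y' : ℕ × ℕ) :
    ent (am a) y y' = if y.2 = y'.2 then ent a y.1 y'.1 else 0 :=
  ent_amp (Equiv.refl (ℕ × ℕ)) a y.1 y'.1 y.2 y'.2

/-- the embedding -/
noncomputable def Ph (a : B ℕ) : B (ℕ × ℕ) := U * am a * star U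

theorem Ph_mul (a b : B ℕ) : Ph (a * b) = Ph a * Ph b := by
  have h : am (a * b) = am a * am b := amp_mul _ _ _
  rw [Ph, Ph, Ph, h]
  calc U * (am a * am b) * star U = U * (am a * (star U * U) * am b) * star U := by
        rw [star_U_mul, mul_one]
    _ = _ := by simp only [mul_assoc]

theorem Ph_star (a : B ℕ) : Ph (star a) = star (Ph a) := by
  have h : am (star a) = star (am a) := amp_star _ _
  rw [Ph, Ph, h, star_mul, star_mul, star_star, mul_assoc]

theorem Ph_add (a b : B ℕ) : Ph (a + b) = Ph a + Ph b := by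
  rw [Ph, Ph, Ph, map_add, mul_add, add_mul]

theorem Ph_smul (c : ℂ) (a : B ℕ) : Ph (c • a) = c • Ph a := by
  rw [Ph, Ph, map_smul, mul_smul_comm, smul_mul_assoc]

theorem Ph_cont : Continuous Ph :=
  (continuous_const.mul am.continuous).mul continuous_const

theorem Ph_inj : Function.Injective Ph := by
  intro a b h
  have h1 : ∀ c, star U * Ph c * U = am c := by
    intro c
    calc star U * Ph c * U = (star U * U) * am c * (star U * U) := by simp only [Ph, mul_assoc]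
      _ = am c := by rw [star_U_mul, one_mul, mul_one]
  have h2 : am a = am b := by rw [← h1, ← h1, h]
  apply ent_ext
  intro x y
  have h3 := congrArg (fun T => ent T (x, 0) (y, 0)) h2
  simpa [ent_am] using h3

theorem cut_am_cut (a : B ℕ) (n : ℕ) :
    cut (fib n) * am a * cut (fib n) = ent a n n • cut (fib n) := by
  classical
  apply ent_ext
  intro y y'
  rw [ent_mul_cut, ent_cut_mul, ent_am, ent_smul, ent_cut]
  obtain ⟨x, z⟩ := y
  obtain ⟨x', z'⟩ := y'
  by_cases h1 : x = n <;> by_cases h2 : x' = n <;> by_cases h3 : z = z' <;>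
    simp [fib, h1, h2, h3]
  intro h
  exact absurd h.symm h2

theorem cut_Ph_cut (a : B ℕ) (n : ℕ) :
    cut (fib n) * Ph a * cut (fib n) = ent a n n • cut (fib n) := by
  calc cut (fib n) * Ph a * cut (fib n)
      = (cut (fib n) * U) * am a * (star U * cut (fib n)) := by simp only [Ph, mul_assoc]
    _ = U * (cut (fib n) * am a * cut (fib n)) * star U := by
        rw [← U_cut, star_U_cut]
        simp only [mul_assoc]
    _ = ent a n n • (U * cut (fib n) * star U) := by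
        rw [cut_am_cut, mul_smul_comm, smul_mul_assoc]
    _ = _ := by rw [U_cut, mul_assoc, U_mul_star, mul_one]

theorem Ph_FP {a : B ℕ} (h : a ∈ @FP ℕ gX.metric) : Ph a ∈ @FP (ℕ × ℕ) gY.metric := by
  classical
  obtain ⟨k, hk⟩ := gauge_of_mem_FP gX h
  refine mem_FP_of_gauge gY k fun y y' hy => ?_
  by_cases h1 : y.1 = y'.1
  · have h2 := congrArg (fun T => ent T y y') (cut_Ph_cut a y.1)
    simp only [ent_mul_cut, ent_cut_mul, ent_smul, ent_cut] at h2
    rw [if_pos (show y' ∈ fib y.1 from h1.symm), if_pos (show y ∈ fib y.1 from rfl)] at h2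
    have h3 : y = y' := by
      by_contra h4
      rw [h2, if_neg (fun h => h4 h.1), mul_zero] at hy
      exact hy rfl
    rw [h3]
    exact gY.mono _ _ _ _ (Nat.zero_le _) (gY.refl _)
  · obtain ⟨w', h2, h3⟩ := ent_mul_ne hy
    obtain ⟨w, h4, h5⟩ := ent_mul_ne h2
    have h6 := ent_star_ne h3
    rw [ent_U] at h4 h6
    obtain ⟨h7, h8⟩ := mem_blk.1 (K_ne h4)
    obtain ⟨h9, h10⟩ := mem_blk.1 (K_ne h6)
    rw [ent_am] at h5
    have h11 : w.2 = w'.2 := by
      by_contra h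
      exact h5 (if_neg h)
    rw [if_pos h11] at h5
    have h12 := hk _ _ h5
    rw [← h7, ← h9] at h12
    refine ⟨h12, ?_⟩
    have h13 : y.1 < k ∧ y'.1 < k := h12.resolve_left h1
    rw [div_pow_mono (by omega) h8, div_pow_mono (by omega) h10, h11]

theorem Ph_UR {a : B ℕ} (h : a ∈ @UR ℕ gX.metric) : Ph a ∈ @UR (ℕ × ℕ) gY.metric :=
  map_mem_closure Ph_cont h fun _ hb => Ph_FP hb

theorem Ph_mu_self (n : ℕ) : Ph (mu n n) = cut (fib n) := by
  classical
  have h : am (mu n n) = cut (fib n) := by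
    apply ent_ext
    rintro ⟨x, z⟩ ⟨x', z'⟩
    rw [ent_am, ent_mu, ent_cut]
    by_cases h1 : x = n <;> by_cases h2 : x' = n <;> by_cases h3 : z = z' <;>
      simp [fib, h1, h2, h3]
    intro h
    exact absurd h.symm h2
  rw [Ph, h, U_cut, mul_assoc, U_mul_star, mul_one]

theorem norm_Ph_mu (n : ℕ) (y y' : ℕ × ℕ) :
    ‖(Ph (mu 0 n) (dl y)) y'‖ ≤ 1 / Real.sqrt (2 ^ n) := by
  classical
  have h1 : cut (fib 0) * am (mu 0 n) = am (mu 0 n) := by
    apply ent_ext
    rintro ⟨x, z⟩ ⟨x', z'⟩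
    rw [ent_cut_mul, ent_am, ent_mu]
    by_cases h1 : x = 0 <;> simp [fib, h1]
  have h2 : Ph (mu 0 n) = am (mu 0 n) * star U := by
    rw [Ph, ← h1, ← mul_assoc, U_cut_zero]
  rw [h2, mul_apply_eq_comp]
  have h3 : ∀ ξ : L2 (ℕ × ℕ), (am (mu 0 n) ξ) y' = if y'.1 = 0 then ξ (n, y'.2) else 0 := by
    intro ξ
    have := amp_apply (Equiv.refl (ℕ × ℕ)) (mu 0 n) ξ y'.1 y'.2
    refine this.trans ?_
    rw [mu_apply, lp.coeFn_smul, Pi.smul_apply, dl_apply, pull_apply]
    by_cases h : y'.1 = 0 <;> simp [h]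
  rw [h3]
  split_ifs
  · have h4 : (star U (dl y)) (n, y'.2) = ent (star U) (n, y'.2) y := rfl
    rw [h4, ent_star, ent_U, RCLike.norm_conj]
    exact norm_K _ _
  · simp

end Pool.Agent.H596Z.Roe
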